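import Pool.Agent.Helper30.Sq.Final

/-!
# Square occurrences in binary words with one hole

`γ_1(n) = γ_0(n) + 1` for every `n ≥ 2`, where `γ_h(n)` is the least number of square occurrences
of a binary partial word of length `n` with exactly `h` holes.

The definitions (`PWord`, `Fits`, `holes`, `sqAt`, `sqOcc`, `gamma`) are in
`Pool.Agent.Helper30.Sq.Defs`.

Outline of the proof.

* `γ_1(n) ≥ γ_0(n) + 1`: fill the hole with the letter different from an adjacent letter.
* Lower bound for `γ_0(n)` (`Sq.Lower`): a finite automaton with 1250 contexts (of at most 275
  letters) and a potential shows that `187 s(w) - 103 n` is at least `-487` when it is odd and at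
  least `-470` when it is even; six exceptional lengths `4, 6, 10, 39, 79, 128` are improved by
  one with a search.
* Upper bound for `γ_1(n)` (`Sq.Word`, `Sq.Big`, `Sq.Runs`, `Sq.Tail`, `Sq.Sound`): words
  made of alternately complemented blocks of length 187, governed by a binary word without
  squares of even period, with a hole in position `0` and one of finitely many tails.
-/

namespace Pool.Agent.Results.MP_1442ba_co.HoleSquares

open SquareHole

/-- For every `n ≥ 2` we have `γ_1(n) = γ_0(n) + 1`. -/
theorem result : ∀ n : ℕ, 2 ≤ n → gamma 1 n = gamma 0 n + 1 :=
  fun n hn => gamma_one_eq n hn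

end Pool.Agent.Results.MP_1442ba_co.HoleSquares
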